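import Pool.Agent.Y166.LT.Stm

/-! `S_CHOOSE`: every valuation is centred in a translated chart. -/

set_option autoImplicit false

namespace Pool.Agent.Y442.LT.CHOOSE

open MvPolynomial Pool.Agent.Y166.LT Pool.Agent.Y198.MC
open FF (Place)

section Tri
variable {κ : Type*} [Field κ] {N : ℕ} (G : Ta N → κ)

/-- the trilinear form -/
def T (a b c : Fin N → κ) : κ := ∑ t : Ta N, G t * (a t.1 * b t.2.1 * c t.2.2)

theorem T_add1 (a a' b c : Fin N → κ) : T G (a + a') b c = T G a b c + T G a' b c := by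
  simp only [T, ← Finset.sum_add_distrib, Pi.add_apply]
  exact Finset.sum_congr rfl fun t _ => by ring

theorem T_add2 (a b b' c : Fin N → κ) : T G a (b + b') c = T G a b c + T G a b' c := by
  simp only [T, ← Finset.sum_add_distrib, Pi.add_apply]
  exact Finset.sum_congr rfl fun t _ => by ring

theorem T_add3 (a b c c' : Fin N → κ) : T G a b (c + c') = T G a b c + T G a b c' := by
  simp only [T, ← Finset.sum_add_distrib, Pi.add_apply]
  exact Finset.sum_congr rfl fun t _ => by ring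

variable {G}

theorem T_swap12 (h12 : ∀ i j l, G (i, j, l) = G (j, i, l)) (a b c : Fin N → κ) :
    T G a b c = T G b a c := by
  unfold T
  refine Fintype.sum_equiv ⟨fun t => (t.2.1, t.1, t.2.2), fun t => (t.2.1, t.1, t.2.2),
    fun _ => rfl, fun _ => rfl⟩ _ _ fun t => ?_
  have h := h12 t.1 t.2.1 t.2.2
  show G (t.1, t.2.1, t.2.2) * _ = G (t.2.1, t.1, t.2.2) * (b t.2.1 * a t.1 * c t.2.2)
  rw [h]
  ring

theorem T_swap23 (h23 : ∀ i j l, G (i, j, l) = G (i, l, j)) (a b c : Fin N → κ) :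
    T G a b c = T G a c b := by
  unfold T
  refine Fintype.sum_equiv ⟨fun t => (t.1, t.2.2, t.2.1), fun t => (t.1, t.2.2, t.2.1),
    fun _ => rfl, fun _ => rfl⟩ _ _ fun t => ?_
  have h := h23 t.1 t.2.1 t.2.2
  show G (t.1, t.2.1, t.2.2) * _ = G (t.1, t.2.2, t.2.1) * (a t.1 * c t.2.2 * b t.2.1)
  rw [h]
  ring

theorem polar (h12 : ∀ i j l, G (i, j, l) = G (j, i, l)) (h23 : ∀ i j l, G (i, j, l) = G (i, l, j))
    (h : ∀ a, T G a a a = 0) (a b c : Fin N → κ) : 6 * T G a b c = 0 := by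
  have h1 := h (a + b + c)
  have h2 := h (a + b)
  have h3 := h (a + c)
  have h4 := h (b + c)
  have h5 := h a
  have h6 := h b
  have h7 := h c
  simp only [T_add1, T_add2, T_add3] at h1 h2 h3 h4
  have e1 := T_swap12 h12 b a c
  have e2 := T_swap23 h23 a c b
  have e3 := T_swap23 h23 b c a
  have e4 := T_swap12 h12 c a b
  have e5 := T_swap12 h12 c b a
  linear_combination h1 - h2 - h3 - h4 + h5 + h6 + h7 - e1 - e2 - (e3 + e1) - (e4 + e2) -
    (e5 + e3 + e1)

theorem T_single (i j l : Fin N) :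
    T G (Pi.single i 1) (Pi.single j 1) (Pi.single l 1) = G (i, j, l) := by
  unfold T
  rw [Finset.sum_eq_single (i, j, l)]
  · simp
  · rintro ⟨i', j', l'⟩ _ hne
    by_contra hcon
    apply hne
    have h1 : i' = i := by
      by_contra hi
      apply hcon
      simp [Pi.single_apply, hi]
    have h2 : j' = j := by
      by_contra hi
      apply hcon
      simp [Pi.single_apply, hi]
    have h3 : l' = l := by
      by_contra hi
      apply hcon
      simp [Pi.single_apply, hi]
    rw [h1, h2, h3]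
  · intro h
    exact absurd (Finset.mem_univ _) h

end Tri

section Alg
variable {k κ : Type*} [Field k] [CharZero k] [Field κ] [Algebra k κ] {r : ℕ}

theorem exists_g (P : Sg (r + 2) → κ) (G : Ta (r + 2) → κ) (s₀ : Sg (r + 2)) (hP : P s₀ ≠ 0)
    (t₀ : Ta (r + 2)) (hG : G t₀ ≠ 0) (h12 : ∀ i j l, G (i, j, l) = G (j, i, l))
    (h23 : ∀ i j l, G (i, j, l) = G (i, l, j)) :
    ∃ g : Matrix (Fin (r + 2)) (Fin (r + 2)) k, g.det ≠ 0 ∧
      ∑ s : Sg (r + 2), algebraMap k κ (g 0 s.1 * g 1 s.2) * P s ≠ 0 ∧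
      ∑ t : Ta (r + 2), algebraMap k κ (g 0 t.1 * g 0 t.2.1 * g 0 t.2.2) * G t ≠ 0 := by
  have hinj : Function.Injective (algebraMap k κ) := (algebraMap k κ).injective
  set FP : MvPolynomial (Fin (r + 2) × Fin (r + 2)) κ :=
    ∑ s : Sg (r + 2), X (0, s.1) * X (1, s.2) * C (P s) with hFP
  set FG : MvPolynomial (Fin (r + 2) × Fin (r + 2)) κ :=
    ∑ t : Ta (r + 2), X (0, t.1) * X (0, t.2.1) * X (0, t.2.2) * C (G t) with hFG
  have hFPe : ∀ x, eval x FP = ∑ s : Sg (r + 2), x (0, s.1) * x (1, s.2) * P s := by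
    intro x
    simp [hFP]
  have hFGe : ∀ x, eval x FG =
      ∑ t : Ta (r + 2), x (0, t.1) * x (0, t.2.1) * x (0, t.2.2) * G t := by
    intro x
    simp [hFG]
  have h01 : (0 : Fin (r + 2)) ≠ 1 := by
    intro h
    have := congrArg Fin.val h
    simp at this
  have hFP0 : FP ≠ 0 := by
    intro h
    have h1 := hFPe fun p => if p.1 = 0 then (if p.2 = s₀.1 then 1 else 0)
      else (if p.2 = s₀.2 then 1 else 0)
    rw [h, map_zero, Finset.sum_eq_single s₀] at h1
    · simp [h01.symm] at h1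
      exact hP h1.symm
    · rintro ⟨i, j⟩ _ hne
      by_contra hcon
      apply hne
      have h2 : i = s₀.1 := by
        by_contra hi
        apply hcon
        simp [hi]
      have h3 : j = s₀.2 := by
        by_contra hi
        apply hcon
        simp [hi, h01.symm]
      exact Prod.ext h2 h3
    · intro h
      exact absurd (Finset.mem_univ _) h
  have hFG0 : FG ≠ 0 := by
    intro h
    have h1 : ∀ a : Fin (r + 2) → κ, T G a a a = 0 := by
      intro a
      have h2 := hFGe fun p => a p.2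
      rw [h, map_zero] at h2
      rw [T, h2]
      exact Finset.sum_congr rfl fun t _ => by ring
    have h2 := polar h12 h23 h1 (Pi.single t₀.1 1) (Pi.single t₀.2.1 1) (Pi.single t₀.2.2 1)
    rw [T_single] at h2
    rcases mul_eq_zero.1 h2 with h3 | h3
    · have h4 : algebraMap k κ 6 = 0 := by
        rw [map_ofNat]
        exact h3
      rw [map_eq_zero_iff _ hinj] at h4
      exact absurd h4 (by norm_num)
    · exact hG h3
  have hF : (Matrix.mvPolynomialX (Fin (r + 2)) (Fin (r + 2)) κ).det * (FP * FG) ≠ 0 :=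
    mul_ne_zero (Matrix.det_mvPolynomialX_ne_zero _ _) (mul_ne_zero hFP0 hFG0)
  have hinf : (Set.range (algebraMap k κ)).Infinite := Set.infinite_range_of_injective hinj
  have hex : ∃ x ∈ Set.pi Set.univ
      (fun _ : Fin (r + 2) × Fin (r + 2) => Set.range (algebraMap k κ)),
      eval x ((Matrix.mvPolynomialX (Fin (r + 2)) (Fin (r + 2)) κ).det * (FP * FG)) ≠ 0 := by
    by_contra hcon
    push Not at hcon
    apply hF
    refine MvPolynomial.funext_set _ (fun _ => hinf) fun x hx => ?_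
    rw [hcon x hx, map_zero]
  obtain ⟨x, hx, hxF⟩ := hex
  choose g hg using fun p : Fin (r + 2) × Fin (r + 2) => hx p (Set.mem_univ p)
  rw [map_mul, map_mul] at hxF
  have hd := left_ne_zero_of_mul hxF
  have hp := left_ne_zero_of_mul (right_ne_zero_of_mul hxF)
  have hq := right_ne_zero_of_mul (right_ne_zero_of_mul hxF)
  refine ⟨Matrix.of fun i j => g (i, j), ?_, ?_, ?_⟩
  · intro h
    apply hd
    have h1 : (Matrix.mvPolynomialX (Fin (r + 2)) (Fin (r + 2)) κ).map (eval x) =
        (Matrix.of fun i j => g (i, j)).map (algebraMap k κ) := by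
      ext i j
      simp [Matrix.mvPolynomialX_apply, hg]
    rw [RingHom.map_det, RingHom.mapMatrix_apply, h1, ← RingHom.mapMatrix_apply,
      ← RingHom.map_det, h, map_zero]
  · rw [hFPe] at hp
    simpa [hg] using hp
  · rw [hFGe] at hq
    simpa [hg] using hq

end Alg

section Val
variable {k K : Type} [Field k] [Field K] [Algebra k K] (v : Place k K)

theorem reg_sum {ι : Type} (s : Finset ι) (f : ι → K) (hf : ∀ i ∈ s, v.Reg (f i)) :
    v.Reg (∑ i ∈ s, f i) := by
  classical
  induction s using Finset.induction_on with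
  | empty => exact v.reg_zero
  | insert a s ha ih =>
    rw [Finset.sum_insert ha]
    exact v.reg_add (hf a (Finset.mem_insert_self a s))
      (ih fun i hi => hf i (Finset.mem_insert_of_mem hi))

theorem red_sum {ι : Type} (s : Finset ι) (f : ι → K) (hf : ∀ i ∈ s, v.Reg (f i)) :
    v.red (∑ i ∈ s, f i) = ∑ i ∈ s, v.red (f i) := by
  classical
  induction s using Finset.induction_on with
  | empty => exact v.red_zero
  | insert a s ha ih =>
    have h1 : ∀ i ∈ s, v.Reg (f i) := fun i hi => hf i (Finset.mem_insert_of_mem hi)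
    rw [Finset.sum_insert ha, Finset.sum_insert ha,
      v.red_add (hf a (Finset.mem_insert_self a s)) (reg_sum v s f h1), ih h1]

theorem exists_min {ι : Type} [Fintype ι] (f : ι → K) (i₀ : ι) (h : f i₀ ≠ 0) :
    ∃ i₁, f i₁ ≠ 0 ∧ ∀ i, v.Reg (f i / f i₁) := by
  classical
  obtain ⟨i₁, hi₁, hmin⟩ := Finset.exists_min_image (Finset.univ.filter fun i => f i ≠ 0)
    (fun i => v.ord (f i)) ⟨i₀, by simp [h]⟩
  have hi₁' : f i₁ ≠ 0 := (Finset.mem_filter.1 hi₁).2
  refine ⟨i₁, hi₁', fun i => ?_⟩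
  by_cases hi : f i = 0
  · left
    rw [hi, zero_div]
  · right
    rw [v.ord_div hi hi₁']
    have := hmin i (Finset.mem_filter.2 ⟨Finset.mem_univ i, hi⟩)
    omega

theorem reg_div_unit {f u : K} (hu : u ≠ 0) (hu0 : v.ord u = 0) (hf : v.Reg f) : v.Reg (f / u) := by
  by_cases h : f = 0
  · left
    rw [h, zero_div]
  · right
    rw [v.ord_div h hu, hu0, sub_zero]
    exact (v.reg_iff h).1 hf

/-- sums with coefficients in `k` of a family, divided by the member of smallest order -/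
theorem sum_facts {ι : Type} [Fintype ι] (f : ι → K) (i₁ : ι) (h1 : f i₁ ≠ 0)
    (hreg : ∀ i, v.Reg (f i / f i₁)) (a : ι → k)
    (ha : ∑ i, algebraMap k v.RF (a i) * v.red (f i / f i₁) ≠ 0) :
    ∑ i, algebraMap k K (a i) * f i ≠ 0 ∧
      ∀ b : ι → k, v.Reg ((∑ i, algebraMap k K (b i) * f i) /
        ∑ i, algebraMap k K (a i) * f i) := by
  have h2 : ∀ b : ι → k, (∑ i, algebraMap k K (b i) * f i) / f i₁ =
      ∑ i, algebraMap k K (b i) * (f i / f i₁) := by
    intro b
    rw [Finset.sum_div]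
    exact Finset.sum_congr rfl fun i _ => by rw [mul_div_assoc]
  have h3 : ∀ (b : ι → k) (i : ι), v.Reg (algebraMap k K (b i) * (f i / f i₁)) :=
    fun b i => v.reg_mul (v.reg_const _) (hreg i)
  have h4 : ∀ b : ι → k, v.Reg ((∑ i, algebraMap k K (b i) * f i) / f i₁) := by
    intro b
    rw [h2]
    exact reg_sum v _ _ fun i _ => h3 b i
  have h5 : v.red ((∑ i, algebraMap k K (a i) * f i) / f i₁) ≠ 0 := by
    rw [h2, red_sum v _ _ fun i _ => h3 a i]
    intro h
    apply ha
    rw [← h]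
    refine Finset.sum_congr rfl fun i _ => ?_
    rw [v.red_mul (v.reg_const _) (hreg i)]
    rfl
  rw [Ne, v.red_eq_zero_iff (h4 a)] at h5
  push Not at h5
  obtain ⟨h6, h7⟩ := h5
  have h8 : v.ord ((∑ i, algebraMap k K (a i) * f i) / f i₁) = 0 :=
    le_antisymm h7 ((v.reg_iff h6).1 (h4 a))
  refine ⟨fun h => h6 (by rw [h, zero_div]), fun b => ?_⟩
  have h9 := reg_div_unit v h6 h8 (h4 b)
  rwa [div_div_div_cancel_right₀ h1] at h9

end Val

theorem done : S_CHOOSE := by
  intro k K _ _ _ _ r Y x hC v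
  obtain ⟨c, hc, hx⟩ := hC.eq
  have hinj : Function.Injective (algebraMap k K) := (algebraMap k K).injective
  set P : Sg (r + 2) → K := wdg (U0 Y) (V0 Y) with hP
  set G : Ta (r + 2) → K :=
    cub (U0 Y) (V0 Y) (mulc ![1, Y (.inr 0)] ![1, Y (.inr 1), Y (.inr 2)]) with hG
  have hU0 : U0 Y 0 = 1 := rfl
  have hV0 : V0 Y 0 = 0 := rfl
  have hU1 : U0 Y 1 = 0 := rfl
  have hV1 : V0 Y 1 = 1 := rfl
  have hP0 : P (0, 1) ≠ 0 := by
    simp [hP, wdg, hU0, hV0, hU1, hV1]
  have hG0 : G (0, 0, 0) ≠ 0 := by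
    have h3 : (3 : K) ≠ 0 := by
      have h4 : algebraMap k K 3 ≠ 0 := by
        rw [Ne, map_eq_zero_iff _ hinj]
        norm_num
      rwa [map_ofNat] at h4
    simpa [hG, cub, mulc, hU0, hV0] using h3
  obtain ⟨s₀, hs₀, hsreg⟩ := exists_min v P _ hP0
  obtain ⟨t₀, ht₀, htreg⟩ := exists_min v G _ hG0
  have hG12 : ∀ i j l, G (i, j, l) = G (j, i, l) := by
    intro i j l
    simp only [hG, cub]
    ring
  have hG23 : ∀ i j l, G (i, j, l) = G (i, l, j) := by
    intro i j l
    simp only [hG, cub]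
    ring
  obtain ⟨g, hg, hgP, hgG⟩ := exists_g (k := k) (fun s => v.red (P s / P s₀))
    (fun t => v.red (G t / G t₀)) s₀ (by rw [div_self hs₀, v.red_one]; exact one_ne_zero) t₀
    (by rw [div_self ht₀, v.red_one]; exact one_ne_zero)
    (fun i j l => by rw [hG12 i j l]) (fun i j l => by rw [hG23 i j l])
  obtain ⟨hP1, hP2⟩ := sum_facts v P s₀ hs₀ hsreg (fun s => g 0 s.1 * g 1 s.2) hgP
  obtain ⟨hG1, hG2⟩ := sum_facts v G t₀ ht₀ htreg
    (fun t => g 0 t.1 * g 0 t.2.1 * g 0 t.2.2) hgG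
  have hact : ∀ t : Co (r + 2), actX g x t =
      c * ((∑ s : Sg (r + 2), algebraMap k K (g t.1.1 s.1 * g t.1.2 s.2) * P s) *
        ∑ s : Ta (r + 2), algebraMap k K (g t.2.1 s.1 * g t.2.2.1 s.2.1 * g t.2.2.2 s.2.2) *
          G s) := by
    intro t
    unfold actX
    rw [Finset.sum_mul_sum, Finset.mul_sum, Fintype.sum_prod_type]
    refine Finset.sum_congr rfl fun s _ => ?_
    rw [Finset.mul_sum]
    refine Finset.sum_congr rfl fun s' _ => ?_
    rw [hx]
    have h1 : xOf Y (s, s') = P s * G s' := rfl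
    simp only [h1, map_mul]
    ring
  refine ⟨g, hg, ?_, fun j => ?_⟩
  · rw [hact]
    exact mul_ne_zero hc (mul_ne_zero hP1 hG1)
  · rw [hact, hact, mul_div_mul_left _ _ hc, mul_div_mul_comm]
    exact v.reg_mul (hP2 _) (hG2 _)

end Pool.Agent.Y442.LT.CHOOSE
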