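import Pool.Agent.Y166.LT.Stm

/-! `S_KAP1`: functions regular outside the ramification divisor, in the chart. -/

set_option autoImplicit false

namespace Pool.Agent.Y442.LT.KAP1

open MvPolynomial Pool.Agent.Y166.LT Pool.Agent.Y198.MC
open FF (Place)

section
variable {k K σ : Type} [Field k] [Field K] [Algebra k K] {t : σ → K}

theorem aeval_ne (ht : AlgebraicIndependent k t) {F : MvPolynomial σ k} (hF : F ≠ 0) :
    aeval t F ≠ 0 := by
  intro h
  exact hF (ht (by rw [h, map_zero]))

/-- reduced fractions -/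
theorem exists_frac (ht : AlgebraicIndependent k t)
    (htop : IntermediateField.adjoin k (Set.range t) = ⊤) (φ : K) :
    ∃ A B : MvPolynomial σ k, B ≠ 0 ∧ IsRelPrime A B ∧ φ = aeval t A / aeval t B := by
  have h1 : φ ∈ IntermediateField.adjoin k (Set.range t) := by rw [htop]; trivial
  rw [IntermediateField.mem_adjoin_range_iff] at h1
  obtain ⟨A, B, hAB⟩ := h1
  by_cases hB : B = 0
  · refine ⟨0, 1, one_ne_zero, isRelPrime_one_right, ?_⟩
    rw [hAB, hB]
    simp
  · obtain ⟨A', B', c, hrel, rfl, rfl⟩ := UniqueFactorizationMonoid.exists_reduced_factors' A B hB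
    have hc : c ≠ 0 := left_ne_zero_of_mul hB
    have hB' : B' ≠ 0 := right_ne_zero_of_mul hB
    refine ⟨A', B', hB', hrel, ?_⟩
    rw [hAB, map_mul, map_mul, mul_div_mul_left _ _ (aeval_ne ht hc)]

theorem ord_pow_mul (ht : AlgebraicIndependent k t) {v : Place k K} {h : MvPolynomial σ k}
    (hh : h ≠ 0) (hv : IsPl t v h) {n : ℕ} {a : MvPolynomial σ k} (ha : ¬ h ∣ a) :
    v.ord (aeval t (h ^ n * a)) = n := by
  have ha0 : a ≠ 0 := by
    rintro rfl
    exact ha (dvd_zero _)
  rw [map_mul, map_pow, v.ord_mul (pow_ne_zero _ (aeval_ne ht hh)) (aeval_ne ht ha0),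
    v.ord_pow, hv.1, hv.2 a ha]
  simp

end

theorem done : S_UNR → S_IRR → S_KAP1 := by
  intro hUNR hIRR k K _ _ _ _ _ r Y x hC φ hφ
  obtain ⟨A, B, hB, hrel, hAB⟩ := exists_frac hC.ind hC.top φ
  obtain ⟨-, -, -, -, hrho⟩ := hIRR k r
  -- irreducible factors of `B`
  have key : ∀ h : MvPolynomial (Ch r) k, Irreducible h → h ∣ B → h ∣ rho k r := by
    intro h hh hhB
    by_contra hcon
    obtain ⟨v, hv, hvu⟩ := hUNR k K r Y x hC h hh hcon
    have hreg := hφ v hvu
    have hhA : ¬ h ∣ A := fun hA => hh.not_isUnit (hrel hA hhB)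
    have hA0 : A ≠ 0 := by
      rintro rfl
      exact hhA (dvd_zero _)
    obtain ⟨n, b, hb, hnb⟩ := WfDvdMonoid.max_power_factor hB hh
    have hn : 1 ≤ n := by
      rcases Nat.eq_zero_or_pos n with rfl | hn
      · exfalso
        rw [pow_zero, one_mul] at hnb
        rw [hnb] at hhB
        exact hb hhB
      · exact hn
    have h1 : v.ord (aeval Y B) = n := by
      rw [hnb]
      exact ord_pow_mul hC.ind hh.ne_zero hv hb
    have h2 : v.ord (aeval Y A) = 0 := hv.2 A hhA
    have hA' := aeval_ne hC.ind hA0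
    have hB' := aeval_ne hC.ind hB
    have hne : φ ≠ 0 := by
      rw [hAB]
      exact div_ne_zero hA' hB'
    rw [v.reg_iff hne, hAB, v.ord_div hA' hB', h1, h2] at hreg
    omega
  obtain ⟨M, a, ha, hMa⟩ := WfDvdMonoid.max_power_factor hB hrho
  have ha0 : a ≠ 0 := by
    rintro rfl
    exact ha (dvd_zero _)
  have hau : IsUnit a := by
    by_contra hcon
    obtain ⟨h, hh, hha⟩ := WfDvdMonoid.exists_irreducible_factor hcon ha0
    have h1 : h ∣ rho k r := key h hh (by rw [hMa]; exact hha.mul_left _)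
    have h2 : Associated h (rho k r) := (hh.dvd_irreducible_iff_associated hrho).1 h1
    exact ha (h2.symm.dvd.trans hha)
  obtain ⟨u, hu⟩ := hau.exists_right_inv
  refine ⟨M, A * u, ?_⟩
  have h1 : aeval Y a * aeval Y u = (1 : K) := by rw [← map_mul, hu, map_one]
  have h2 : aeval Y B = aeval Y (rho k r) ^ M * aeval Y a := by rw [hMa, map_mul, map_pow]
  have h3 := aeval_ne hC.ind hrho.ne_zero
  have h4 := aeval_ne hC.ind ha0
  rw [hAB, h2, map_mul]
  field_simp
  rw [mul_assoc, h1, mul_one]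

end Pool.Agent.Y442.LT.KAP1
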