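import Pool.Agent.Y166.LT.Stm

/-! `S_KAP2`: functions regular outside the ramification divisor, in terms of the parameters. -/

set_option autoImplicit false

namespace Pool.Agent.Y442.LT.KAP2

open MvPolynomial Pool.Agent.Y166.LT Pool.Agent.Y198.MC
open FF (Place)

/-! ### Naturality -/

section
variable {A B : Type} [CommRing A] [CommRing B] (f : A →+* B) {N : ℕ}

theorem map_wdg (u v : Fin N → A) (s : Sg N) :
    f (wdg u v s) = wdg (fun i => f (u i)) (fun i => f (v i)) s := by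
  simp [wdg]

theorem map_vec (u v : Fin N → A) (x : Fin 2 → A) (i : Fin N) :
    f (vec u v x i) = vec (fun i => f (u i)) (fun i => f (v i)) (fun i => f (x i)) i := by
  simp [vec]

theorem map_quad (u v : Fin N → A) (q : Fin 3 → A) (s : Fin N × Fin N) :
    f (quad u v q s) = quad (fun i => f (u i)) (fun i => f (v i)) (fun i => f (q i)) s := by
  simp [quad]

theorem map_ptY (u v : Fin N → A) (x : Fin 2 → A) (q : Fin 3 → A) (s : Co N) :
    f (ptY u v x q s) =
      ptY (fun i => f (u i)) (fun i => f (v i)) (fun i => f (x i)) (fun i => f (q i)) s := by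
  simp only [ptY, map_mul, map_wdg, map_vec, map_quad]

variable {r : ℕ}

theorem map_wS (t : Sy r → A) (s : Co (r + 2)) : f (wS t s) = wS (fun i => f (t i)) s :=
  map_ptY f _ _ _ _ s

theorem map_P01 (t : Sy r → A) : f (P01 t) = P01 (fun i => f (t i)) := map_wdg f _ _ _

theorem map_X0 (t : Sy r → A) : f (X0 t) = X0 (fun i => f (t i)) := map_vec f _ _ _ _

theorem map_Q00 (t : Sy r → A) : f (Q00 t) = Q00 (fun i => f (t i)) := map_quad f _ _ _ _

theorem map_RR (t : Sy r → A) : f (RR t) = RR (fun i => f (t i)) := by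
  simp [RR, tx, tq, map_ofNat f 2]

theorem map_U0 (y : Ch r → A) (i : Fin (r + 2)) : f (U0 y i) = U0 (fun j => f (y j)) i := by
  refine Fin.cases ?_ (fun i => ?_) i
  · simp [U0]
  · refine Fin.cases ?_ (fun i => ?_) i
    · simp [U0]
    · simp [U0]

theorem map_V0 (y : Ch r → A) (i : Fin (r + 2)) : f (V0 y i) = V0 (fun j => f (y j)) i := by
  refine Fin.cases ?_ (fun i => ?_) i
  · simp [V0]
  · refine Fin.cases ?_ (fun i => ?_) i
    · simp [V0]
    · simp [V0]

theorem map_cons2 (a : A) : (fun i => f (![1, a] i)) = ![1, f a] := by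
  funext i
  fin_cases i <;> simp

theorem map_cons3 (a b : A) : (fun i => f (![1, a, b] i)) = ![1, f a, f b] := by
  funext i
  fin_cases i <;> simp

theorem map_chart (y : Ch r → A) (g : Fin (r + 2) → Fin (r + 2)) (s : Co (r + 2)) :
    f (ptY (fun i => U0 y (g i)) (fun i => V0 y (g i)) ![1, y (.inr 0)]
      ![1, y (.inr 1), y (.inr 2)] s) =
    ptY (fun i => U0 (fun j => f (y j)) (g i)) (fun i => V0 (fun j => f (y j)) (g i))
      ![1, f (y (.inr 0))] ![1, f (y (.inr 1)), f (y (.inr 2))] s := by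
  rw [map_ptY, map_cons2, map_cons3]
  simp only [map_U0, map_V0]

end

/-! ### The chart of the covering -/

section
variable {L : Type} [Field L] {r : ℕ}

theorem chartY (t : Sy r → L) (hD : P01 t ≠ 0) (hX : X0 t ≠ 0) (hQ : Q00 t ≠ 0) (y : Ch r → L)
    (hy : ∀ j, y j = wS t (rrY r j) / wS t (j0 r)) (s : Co (r + 2)) :
    wS t s = wS t (j0 r) * ptY (U0 y) (V0 y) ![1, y (.inr 0)] ![1, y (.inr 1), y (.inr 2)] s := by
  have hj0 : wS t (j0 r) = P01 t * (X0 t * Q00 t) := rfl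
  have hU : ∀ i, U0 y i = wdg (tu t) (tv t) (i, 1) / P01 t := by
    intro i
    refine Fin.cases ?_ (fun i => ?_) i
    · simp only [U0, Fin.cons_zero]
      exact (div_self hD).symm
    · refine Fin.cases ?_ (fun i => ?_) i
      · simp only [U0, Fin.cons_succ, Fin.cons_zero]
        have h1 : wdg (tu t) (tv t) (Fin.succ 0, 1) = 0 := by
          simp only [wdg]
          show tu t 1 * tv t 1 - tv t 1 * tu t 1 = 0
          ring
        rw [h1, zero_div]
      · simp only [U0, Fin.cons_succ]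
        rw [hy, hj0]
        have h1 : wS t (rrY r (.inl (i, 0))) =
            wdg (tu t) (tv t) (i.succ.succ, 1) * (X0 t * Q00 t) := rfl
        rw [h1, mul_div_mul_right _ _ (mul_ne_zero hX hQ)]
  have hV : ∀ i, V0 y i = wdg (tu t) (tv t) (0, i) / P01 t := by
    intro i
    refine Fin.cases ?_ (fun i => ?_) i
    · simp only [V0, Fin.cons_zero]
      have h1 : wdg (tu t) (tv t) (0, 0) = 0 := by
        simp only [wdg]
        ring
      rw [h1, zero_div]
    · refine Fin.cases ?_ (fun i => ?_) i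
      · simp only [V0, Fin.cons_succ, Fin.cons_zero]
        exact (div_self hD).symm
      · simp only [V0, Fin.cons_succ]
        rw [hy, hj0]
        have h1 : wS t (rrY r (.inl (i, 1))) =
            wdg (tu t) (tv t) (0, i.succ.succ) * (X0 t * Q00 t) := rfl
        rw [h1, mul_div_mul_right _ _ (mul_ne_zero hX hQ)]
  have hx : y (.inr 0) = vec (tu t) (tv t) (tx t) 1 / X0 t := by
    rw [hy, hj0]
    have h1 : wS t (rrY r (.inr 0)) =
        P01 t * (vec (tu t) (tv t) (tx t) 1 * Q00 t) := rfl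
    rw [h1]
    field_simp
  have hq1 : y (.inr 1) = quad (tu t) (tv t) (tq t) (0, 1) / Q00 t := by
    rw [hy, hj0]
    have h1 : wS t (rrY r (.inr 1)) =
        P01 t * (X0 t * quad (tu t) (tv t) (tq t) (0, 1)) := rfl
    rw [h1]
    field_simp
  have hq2 : y (.inr 2) = quad (tu t) (tv t) (tq t) (1, 1) / Q00 t := by
    rw [hy, hj0]
    have h1 : wS t (rrY r (.inr 2)) =
        P01 t * (X0 t * quad (tu t) (tv t) (tq t) (1, 1)) := rfl
    rw [h1]
    field_simp
  have hu : ∀ i, tu t i * P01 t = tu t 0 * wdg (tu t) (tv t) (i, 1) +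
      tu t 1 * wdg (tu t) (tv t) (0, i) := by
    intro i
    simp only [P01, wdg]
    ring
  have hv : ∀ i, tv t i * P01 t = tv t 0 * wdg (tu t) (tv t) (i, 1) +
      tv t 1 * wdg (tu t) (tv t) (0, i) := by
    intro i
    simp only [P01, wdg]
    ring
  have hu' : ∀ i, tu t i = tu t 0 * U0 y i + tu t 1 * V0 y i := by
    intro i
    rw [hU, hV]
    field_simp
    exact hu i
  have hv' : ∀ i, tv t i = tv t 0 * U0 y i + tv t 1 * V0 y i := by
    intro i
    rw [hU, hV]
    field_simp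
    exact hv i
  have h1 : wdg (tu t) (tv t) s.1 = P01 t * wdg (U0 y) (V0 y) s.1 := by
    simp only [wdg, P01]
    rw [hu' s.1.1, hu' s.1.2, hv' s.1.1, hv' s.1.2]
    ring
  have h2 : vec (tu t) (tv t) (tx t) s.2.1 = X0 t * vec (U0 y) (V0 y) ![1, y (.inr 0)] s.2.1 := by
    have h3 : vec (U0 y) (V0 y) ![1, y (.inr 0)] s.2.1 =
        U0 y s.2.1 + y (.inr 0) * V0 y s.2.1 := by
      simp [vec]
    rw [h3, hx]
    have h4 : X0 t * (U0 y s.2.1 + vec (tu t) (tv t) (tx t) 1 / X0 t * V0 y s.2.1) =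
        X0 t * U0 y s.2.1 + vec (tu t) (tv t) (tx t) 1 * V0 y s.2.1 := by
      field_simp
    rw [h4]
    simp only [vec, X0]
    rw [hu' s.2.1, hv' s.2.1]
    ring
  have h3 : quad (tu t) (tv t) (tq t) s.2.2 =
      Q00 t * quad (U0 y) (V0 y) ![1, y (.inr 1), y (.inr 2)] s.2.2 := by
    have h3 : quad (U0 y) (V0 y) ![1, y (.inr 1), y (.inr 2)] s.2.2 =
        U0 y s.2.2.1 * U0 y s.2.2.2 +
          y (.inr 1) * (U0 y s.2.2.1 * V0 y s.2.2.2 + V0 y s.2.2.1 * U0 y s.2.2.2) +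
          y (.inr 2) * (V0 y s.2.2.1 * V0 y s.2.2.2) := by
      simp [quad]
    rw [h3, hq1, hq2]
    have h4 : Q00 t * (U0 y s.2.2.1 * U0 y s.2.2.2 +
          quad (tu t) (tv t) (tq t) (0, 1) / Q00 t *
            (U0 y s.2.2.1 * V0 y s.2.2.2 + V0 y s.2.2.1 * U0 y s.2.2.2) +
          quad (tu t) (tv t) (tq t) (1, 1) / Q00 t * (V0 y s.2.2.1 * V0 y s.2.2.2)) =
        Q00 t * (U0 y s.2.2.1 * U0 y s.2.2.2) +
          quad (tu t) (tv t) (tq t) (0, 1) *
            (U0 y s.2.2.1 * V0 y s.2.2.2 + V0 y s.2.2.1 * U0 y s.2.2.2) +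
          quad (tu t) (tv t) (tq t) (1, 1) * (V0 y s.2.2.1 * V0 y s.2.2.2) := by
      field_simp
    rw [h4]
    simp only [quad, Q00]
    rw [hu' s.2.2.1, hv' s.2.2.1, hu' s.2.2.2, hv' s.2.2.2]
    ring
  show wdg (tu t) (tv t) s.1 * (vec (tu t) (tv t) (tx t) s.2.1 *
    quad (tu t) (tv t) (tq t) s.2.2) = _
  rw [h1, h2, h3, hj0]
  simp only [ptY]
  ring

end

/-! ### The permuted parameters -/

section
variable {k K L : Type} [Field k] [Field K] [Field L] [Algebra k K] [Algebra k L] {r : ℕ}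

/-- the permutation of the parameters -/
def pe (π : Equiv.Perm (Fin (r + 2))) : Sy r ≃ Sy r :=
  Equiv.sumCongr π (Equiv.sumCongr π (Equiv.refl _))

theorem act_perm (π : Equiv.Perm (Fin (r + 2))) (u : Fin (r + 2) → K) :
    act (π.permMatrix k) u = fun i => u (π i) := by
  funext i
  unfold act
  rw [Finset.sum_eq_single (π i)]
  · simp [Equiv.Perm.permMatrix, PEquiv.toMatrix_apply]
  · intro j _ hj
    have : ¬ π i = j := fun h => hj h.symm
    simp [Equiv.Perm.permMatrix, PEquiv.toMatrix_apply, this]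
  · intro h
    exact absurd (Finset.mem_univ _) h

/-- the permutation of the indices -/
def pco (π : Equiv.Perm (Fin (r + 2))) (s : Co (r + 2)) : Co (r + 2) :=
  ((π s.1.1, π s.1.2), (π s.2.1, π s.2.2.1, π s.2.2.2))

theorem ptY_perm (π : Equiv.Perm (Fin (r + 2))) (u v : Fin (r + 2) → L) (x : Fin 2 → L)
    (q : Fin 3 → L) (s : Co (r + 2)) :
    ptY (fun i => u (π i)) (fun i => v (π i)) x q s = ptY u v x q (pco π s) := rfl

theorem emb_perm [Algebra K L] (π : Equiv.Perm (Fin (r + 2))) (Y : Ch r → K) (t : Sy r → L)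
    (hE : Emb k K L r Y t) (hD : P01 t ≠ 0) (hX : X0 t ≠ 0) (hQ : Q00 t ≠ 0) :
    Emb k K L r (Yg (π.permMatrix k) Y) (t ∘ pe π) := by
  refine ⟨hE.ind.comp _ (pe π).injective, ?_, ?_⟩
  · rw [(pe π).surjective.range_comp]
    exact hE.top
  · intro j
    have hw : wS t (j0 r) ≠ 0 := mul_ne_zero hD (mul_ne_zero hX hQ)
    have h1 : ∀ s, algebraMap K L (ptY (act (π.permMatrix k) (U0 Y)) (act (π.permMatrix k) (V0 Y))
        ![1, Y (.inr 0)] ![1, Y (.inr 1), Y (.inr 2)] s) = wS t (pco π s) / wS t (j0 r) := by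
      intro s
      rw [act_perm, act_perm, map_chart, ptY_perm,
        chartY t hD hX hQ (fun j => algebraMap K L (Y j)) hE.coord (pco π s),
        mul_div_cancel_left₀ _ hw]
    unfold Yg
    rw [map_div₀, h1, h1, div_div_div_cancel_right₀ hw]
    rfl

end

/-! ### Denominators -/

section
variable {k L σ ι : Type} [Field k] [Field L] [Algebra k L]

theorem clear_den (t : σ → L) (n : ι → L) (N : ι → MvPolynomial σ k)
    (hn : ∀ j, n j = aeval t (N j)) (W : MvPolynomial σ k) (hW : aeval t W ≠ 0)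
    (A : MvPolynomial ι k) :
    ∃ (s : ℕ) (F : MvPolynomial σ k),
      aeval (fun j => n j / aeval t W) A * aeval t W ^ s = aeval t F := by
  induction A using MvPolynomial.induction_on with
  | C a => exact ⟨0, C a, by simp⟩
  | add p q hp hq =>
    obtain ⟨s1, F1, h1⟩ := hp
    obtain ⟨s2, F2, h2⟩ := hq
    refine ⟨s1 + s2, F1 * W ^ s2 + F2 * W ^ s1, ?_⟩
    rw [map_add, map_add, map_mul, map_mul, map_pow, map_pow, ← h1, ← h2]
    ring
  | mul_X p j hp =>
    obtain ⟨s, F, h⟩ := hp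
    refine ⟨s + 1, F * N j, ?_⟩
    rw [map_mul, map_mul, aeval_X, ← h, ← hn, pow_succ]
    field_simp

end

section
variable {k K L : Type} [Field k] [IsAlgClosed k] [CharZero k] [Field K] [Field L]
  [Algebra k K] [Algebra k L] [Algebra K L] [IsScalarTower k K L] {r : ℕ}

theorem aeval_nat {A : Type} [CommRing A] [Algebra k A] (t : Sy r → A)
    (F : ∀ {B : Type} [CommRing B], (Sy r → B) → B)
    (hF : ∀ {B B' : Type} [CommRing B] [CommRing B'] (f : B →+* B') (t : Sy r → B),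
      f (F t) = F (fun i => f (t i))) :
    aeval t (F (X : Sy r → MvPolynomial (Sy r) k)) = F t := by
  have h := hF ((aeval t : MvPolynomial (Sy r) k →ₐ[k] A) : MvPolynomial (Sy r) k →+* A)
    (X : Sy r → MvPolynomial (Sy r) k)
  simpa using h

theorem aeval_P01 (t : Sy r → L) : aeval t (P01 (X : Sy r → MvPolynomial (Sy r) k)) = P01 t :=
  aeval_nat t P01 fun f t => map_P01 f t

theorem aeval_X0 (t : Sy r → L) : aeval t (X0 (X : Sy r → MvPolynomial (Sy r) k)) = X0 t :=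
  aeval_nat t X0 fun f t => map_X0 f t

theorem aeval_Q00 (t : Sy r → L) : aeval t (Q00 (X : Sy r → MvPolynomial (Sy r) k)) = Q00 t :=
  aeval_nat t Q00 fun f t => map_Q00 f t

theorem aeval_RR (t : Sy r → L) : aeval t (RR (X : Sy r → MvPolynomial (Sy r) k)) = RR t :=
  aeval_nat t RR fun f t => map_RR f t

/-- the polynomial of the chart -/
noncomputable def mm (k : Type) [Field k] (r : ℕ) : MvPolynomial (Sy r) k :=
  P01 X * (X0 X * Q00 X)

theorem aeval_mm (t : Sy r → L) : aeval t (mm k r) = P01 t * (X0 t * Q00 t) := by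
  rw [mm, map_mul, map_mul, aeval_P01, aeval_X0, aeval_Q00]

theorem chart_step (hK1 : S_KAP1) (hF : S_FORM) (Y : Ch r → K) (x : Co (r + 2) → K)
    (t : Sy r → L) (hC : Ctx k K r Y x) (hE : Emb k K L r Y t) (φ : K)
    (hφ : ∀ v : Place k K, Unram (2 * r + 3) x v → v.Reg φ) :
    ∃ (M s : ℕ) (F : MvPolynomial (Sy r) k),
      algebraMap K L φ * RR t ^ M * aeval t (mm k r) ^ s = aeval t F := by
  obtain ⟨M, A, hA⟩ := hK1 k K r Y x hC φ hφ
  obtain ⟨hw, hD, hX, hQ, -, hrho⟩ := hF k K L r Y x t hC hE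
  have hmm : aeval t (mm k r) ≠ 0 := by
    rw [aeval_mm]
    exact mul_ne_zero hD (mul_ne_zero hX hQ)
  obtain ⟨s, F, hsF⟩ := clear_den (k := k) t (fun j => wS t (rrY r j))
    (fun j => wS (X : Sy r → MvPolynomial (Sy r) k) (rrY r j))
    (fun j => (aeval_nat t (fun t => wS t (rrY r j)) (fun f t => map_wS f t _)).symm)
    (mm k r) hmm A
  have h1 : algebraMap K L (aeval Y A) = aeval (fun j => wS t (rrY r j) / aeval t (mm k r)) A := by
    have h0 : (algebraMap K L ∘ Y) = fun j => wS t (rrY r j) / aeval t (mm k r) := by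
      funext j
      rw [Function.comp_apply, hE.coord, aeval_mm, hw]
    rw [← aeval_algebraMap_apply, h0]
  refine ⟨M, s + 2 * M, F * ((X0 X ^ 2 * Q00 X) ^ M * (X0 X * Q00 X) ^ (2 * M)), ?_⟩
  have h2 : algebraMap K L φ * algebraMap K L (aeval Y (rho k r)) ^ M =
      aeval (fun j => wS t (rrY r j) / aeval t (mm k r)) A := by
    rw [← h1, ← hA, map_mul, map_pow]
  have h3 : aeval t (F * ((X0 X ^ 2 * Q00 X) ^ M * (X0 X * Q00 X) ^ (2 * M))) =
      aeval t F * ((X0 t ^ 2 * Q00 t) ^ M * (X0 t * Q00 t) ^ (2 * M)) := by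
    simp only [map_mul, map_pow, aeval_X0, aeval_Q00]
  rw [h3, ← hsF, ← h2, pow_add]
  have h4 : aeval t (mm k r) ^ (2 * M) = (P01 t ^ 2) ^ M * (X0 t * Q00 t) ^ (2 * M) := by
    rw [aeval_mm, mul_pow, pow_mul (P01 t)]
  rw [h4]
  have h5 : algebraMap K L (aeval Y (rho k r)) ^ M * (X0 t ^ 2 * Q00 t) ^ M =
      RR t ^ M * (P01 t ^ 2) ^ M := by
    rw [← mul_pow, ← mul_pow, hrho]
  calc algebraMap K L φ * RR t ^ M * (aeval t (mm k r) ^ s *
        ((P01 t ^ 2) ^ M * (X0 t * Q00 t) ^ (2 * M)))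
      = algebraMap K L φ * (RR t ^ M * (P01 t ^ 2) ^ M) * aeval t (mm k r) ^ s *
        (X0 t * Q00 t) ^ (2 * M) := by ring
    _ = algebraMap K L φ * (algebraMap K L (aeval Y (rho k r)) ^ M * (X0 t ^ 2 * Q00 t) ^ M) *
        aeval t (mm k r) ^ s * (X0 t * Q00 t) ^ (2 * M) := by rw [h5]
    _ = _ := by ring

end

/-! ### Coprimality -/

section
variable {k : Type} [Field k] [IsAlgClosed k] [CharZero k] {r : ℕ}

/-- the test point -/
def zp (k : Type) [Field k] (r : ℕ) (e : Fin (r + 2)) : Sy r → k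
  | .inl i => if i = e then 1 else 0
  | .inr (.inl i) => if i = 1 then 1 else 0
  | .inr (.inr (.inl i)) => if i = 0 then 1 else 0
  | .inr (.inr (.inr i)) => if i = 0 then 1 else 0

theorem zp_facts (e : Fin (r + 2)) (he0 : e ≠ 0) (he1 : e ≠ 1) :
    P01 (zp k r e) = 0 ∧ X0 (zp k r e) = 0 ∧ Q00 (zp k r e) = 0 ∧
      P01 (zp k r e ∘ pe (Equiv.swap 0 e)) * (X0 (zp k r e ∘ pe (Equiv.swap 0 e)) *
        Q00 (zp k r e ∘ pe (Equiv.swap 0 e))) ≠ 0 := by
  have h01 : (0 : Fin (r + 2)) ≠ 1 := by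
    intro h
    have := congrArg Fin.val h
    simp at this
  have hs1 : Equiv.swap 0 e 1 = 1 := Equiv.swap_apply_of_ne_of_ne h01.symm he1.symm
  refine ⟨?_, ?_, ?_, ?_⟩
  · simp [P01, wdg, tu, tv, zp, he0.symm, h01]
  · simp [X0, vec, tu, tv, tx, zp, he0.symm, h01]
  · simp [Q00, quad, tu, tv, tq, zp, he0.symm, h01]
  · have hu0 : tu (zp k r e ∘ pe (Equiv.swap 0 e)) 0 = 1 := by
      show (if Equiv.swap 0 e 0 = e then (1 : k) else 0) = 1
      rw [Equiv.swap_apply_left, if_pos rfl]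
    have hu1 : tu (zp k r e ∘ pe (Equiv.swap 0 e)) 1 = 0 := by
      show (if Equiv.swap 0 e 1 = e then (1 : k) else 0) = 0
      rw [hs1, if_neg he1.symm]
    have hv0 : tv (zp k r e ∘ pe (Equiv.swap 0 e)) 0 = 0 := by
      show (if Equiv.swap 0 e 0 = 1 then (1 : k) else 0) = 0
      rw [Equiv.swap_apply_left, if_neg he1]
    have hv1 : tv (zp k r e ∘ pe (Equiv.swap 0 e)) 1 = 1 := by
      show (if Equiv.swap 0 e 1 = 1 then (1 : k) else 0) = 1
      rw [hs1, if_pos rfl]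
    have hx0 : tx (zp k r e ∘ pe (Equiv.swap 0 e)) 0 = 1 := by
      show (if (0 : Fin 2) = 0 then (1 : k) else 0) = 1
      rw [if_pos rfl]
    have hq0 : tq (zp k r e ∘ pe (Equiv.swap 0 e)) 0 = 1 := by
      show (if (0 : Fin 3) = 0 then (1 : k) else 0) = 1
      rw [if_pos rfl]
    simp [P01, X0, Q00, wdg, vec, quad, hu0, hu1, hv0, hv1, hx0, hq0]

theorem coprime_mm (hI : S_IRR) (e : Fin (r + 2)) (he0 : e ≠ 0) (he1 : e ≠ 1) :
    IsRelPrime (mm k r) (rename (pe (Equiv.swap 0 e)) (mm k r)) := by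
  obtain ⟨hP, hX, hQ, -, -⟩ := hI k r
  obtain ⟨z1, z2, z3, z4⟩ := zp_facts (k := k) e he0 he1
  have hev : aeval (zp k r e) (rename (pe (Equiv.swap 0 e)) (mm k r)) ≠ 0 := by
    rw [aeval_rename, aeval_mm]
    exact z4
  have key : ∀ p : MvPolynomial (Sy r) k, Irreducible p → aeval (zp k r e) p = 0 →
      IsRelPrime p (rename (pe (Equiv.swap 0 e)) (mm k r)) := by
    intro p hp hz
    rw [hp.isRelPrime_iff_not_dvd]
    rintro ⟨c, hc⟩
    apply hev
    rw [hc, map_mul, hz, zero_mul]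
  unfold mm at key ⊢
  refine IsRelPrime.mul_left (key _ hP ?_) (IsRelPrime.mul_left (key _ hX ?_) (key _ hQ ?_))
  · rw [aeval_P01, z1]
  · rw [aeval_X0, z2]
  · rw [aeval_Q00, z3]

end

theorem done : S_KAP1 → S_SYM → S_INV → S_FORM → S_IRR → S_KAP2 := by
  intro hK1 hS hV hF hI k K L _ _ _ _ _ _ _ _ _ r hr Y x t hC hE φ hφ
  obtain ⟨e, he0, he1⟩ : ∃ e : Fin (r + 2), e ≠ 0 ∧ e ≠ 1 := by
    refine ⟨⟨2, by omega⟩, ?_, ?_⟩
    · intro h
      have := congrArg Fin.val h
      simp at this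
    · intro h
      have := congrArg Fin.val h
      simp at this
  set π : Equiv.Perm (Fin (r + 2)) := Equiv.swap 0 e with hπ
  obtain ⟨hw, hD, hX, hQ, -, -⟩ := hF k K L r Y x t hC hE
  have hdet : (π.permMatrix k : Matrix (Fin (r + 2)) (Fin (r + 2)) k).det ≠ 0 := by
    rw [Matrix.det_permutation]
    rcases Int.units_eq_one_or (Equiv.Perm.sign π) with h | h <;> rw [h] <;> simp
  have hC' := hS k K r Y x hC _ hdet
  have hE' := emb_perm π Y t hE hD hX hQ
  have hφ' : ∀ v : Place k K, Unram (2 * r + 3) (actX (π.permMatrix k) x) v → v.Reg φ :=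
    fun v hv => hφ v (((hV k K (r + 2) (2 * r + 3) x _ hdet).2 v).1 hv)
  obtain ⟨M1, s1, F1, h1⟩ := chart_step hK1 hF Y x t hC hE φ hφ
  obtain ⟨M2, s2, F2, h2⟩ := chart_step hK1 hF _ _ _ hC' hE' φ hφ'
  have hRR : RR (t ∘ pe π) = RR t := rfl
  rw [hRR, ← aeval_rename, ← aeval_rename] at h2
  set m1 := mm k r with hm1
  set m2 := rename (pe π) (mm k r) with hm2
  have hrel : IsRelPrime (m1 ^ s1) (m2 ^ s2) := (coprime_mm hI e he0 he1).pow
  have hm1' : aeval t m1 ≠ 0 := by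
    rw [hm1, aeval_mm]
    exact mul_ne_zero hD (mul_ne_zero hX hQ)
  have h3 : (F1 * RR X ^ M2) * m2 ^ s2 = (rename (pe π) F2 * RR X ^ M1) * m1 ^ s1 := by
    apply hE.ind
    simp only [map_mul, map_pow, aeval_RR]
    rw [← h1, ← h2]
    ring
  have h4 : m1 ^ s1 ∣ F1 * RR X ^ M2 := by
    refine hrel.dvd_of_dvd_mul_right ?_
    rw [h3]
    exact dvd_mul_left _ _
  obtain ⟨G, hG⟩ := h4
  refine ⟨M1 + M2, G, ?_⟩
  have h5 : algebraMap K L φ * RR t ^ (M1 + M2) * aeval t m1 ^ s1 = aeval t m1 ^ s1 * aeval t G := by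
    rw [← map_pow, ← map_mul, ← hG]
    simp only [map_mul, map_pow, aeval_RR]
    rw [← h1]
    ring
  rw [mul_comm] at h5
  exact mul_left_cancel₀ (pow_ne_zero _ hm1') h5

end Pool.Agent.Y442.LT.KAP2
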